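import Pool.Agent.helper3.DP.SpecG2
import Pool.Agent.helper96.DP.Basic

/-!
# G3P: probability of the event of the scale `i`
-/

namespace DP

open MeasureTheory

/-- Black (or white) part of the first two parts of `Fev`. -/
def G3P_E (k : Bool) (γ : Set V) (x : V) (k₀ L i : ℕ) : Set (V → Bool) :=
  Ev fun c => armA c k γ x (2 ^ k₀) (2 ^ (i - 1)) ∧
    MrkC c 2 true x (2 ^ (i + 1)) (Dfree true x (2 ^ k₀)) (zpt x (2 ^ (i + 1)))
      (2 ^ (i + 1) / 64) (2 ^ (i + 1) / 8) k ∧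
    MrkC c 2 false x (2 ^ (i + 4)) (Dfree false x (2 ^ L)) (zpt x (2 ^ (i + 4)))
      (2 ^ (i + 4) / 64) (2 ^ (i + 4) / 8) k

theorem G3P_Pr (hz : Bzero_stmt) {F : Set (V → Bool)} {A : Set V} (h : Loc F A) :
    Q (fun _ => 0) F F = Pr F := by
  have := hz (fun _ => 0) F F A h h (fun _ _ => rfl)
  rwa [Set.inter_self] at this

theorem G3P_mul (hz : Bzero_stmt) (hi : Bindep_stmt) {F G : Set (V → Bool)} {A A' : Set V}
    (hA : Disjoint A A') (hF : Loc F A) (hG : Loc G A') : Pr (F ∩ G) = Pr F * Pr G := by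
  have h := hi (fun _ => 0) F F G G A A' hA hF hF hG hG
  rw [G3P_Pr hz hF, G3P_Pr hz hG, G3P_Pr hz (hF.inter hG)] at h
  exact h

theorem G3P_loc (hXL : GXL_stmt) (hXM : GXM_stmt) (hXR : GXR_stmt) (hLA : GLA_stmt) (k : Bool)
    (γ : Set V) (x : V) (k₀ L i : ℕ) (j : Bool) (hi : 4 ≤ i) :
    Loc (G3P_E k γ x k₀ L i)
      ((swr true j x (2 ^ (i - 4)) ∪ swr false j x (2 ^ (i - 4)))ᶜ ∪ swr k j x (2 ^ (i - 4))) := by
  set ℓ := 2 ^ (i - 4) with hℓ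
  have hℓ1 : 1 ≤ ℓ := Nat.one_le_two_pow
  have e1 : 2 ^ (i - 1) = 8 * ℓ := by
    rw [hℓ, show i - 1 = 3 + (i - 4) by omega, pow_add]; norm_num
  have e2 : 2 ^ (i + 1) = 32 * ℓ := by
    rw [hℓ, show i + 1 = 5 + (i - 4) by omega, pow_add]; norm_num
  have e3 : 2 ^ (i + 4) = 256 * ℓ := by
    rw [hℓ, show i + 4 = 8 + (i - 4) by omega, pow_add]; norm_num
  have hR := hXR j x ℓ hℓ1
  have key : ∀ v, v ∉ swr (!k) j x ℓ →
      v ∈ (swr true j x ℓ ∪ swr false j x ℓ)ᶜ ∪ swr k j x ℓ := by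
    intro v hv
    by_cases h : v ∈ swr k j x ℓ
    · exact Or.inr h
    · refine Or.inl ?_
      rintro (h' | h')
      · cases k
        · exact hv h'
        · exact h h'
      · cases k
        · exact h h'
        · exact hv h'
  have l1 : Loc (Ev fun c => armA c k γ x (2 ^ k₀) (2 ^ (i - 1)))
      ((swr true j x ℓ ∪ swr false j x ℓ)ᶜ ∪ swr k j x ℓ) := by
    refine ((hLA x (2 ^ k₀) (2 ^ (i - 1))).2.2 k γ).mono ?_
    intro v hv
    refine key v fun h => ?_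
    have h1 := (hR.2 (!k) v h).1
    have h2 : sd x v ≤ 2 ^ (i - 1) := hv.1.2
    omega
  have l2 : Loc (Ev fun c => MrkC c 2 true x (2 ^ (i + 1)) (Dfree true x (2 ^ k₀))
      (zpt x (2 ^ (i + 1))) (2 ^ (i + 1) / 64) (2 ^ (i + 1) / 8) k)
      ((swr true j x ℓ ∪ swr false j x ℓ)ᶜ ∪ swr k j x ℓ) := by
    refine (hXL 2 true x (2 ^ (i + 1)) (Dfree true x (2 ^ k₀)) (zpt x (2 ^ (i + 1)))
      (2 ^ (i + 1) / 64) (2 ^ (i + 1) / 8) k (Or.inl rfl)).1.mono ?_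
    intro v hv
    refine key v fun h => ?_
    have h1 : sd x v ≤ 2 ^ (i + 1) := hv.1
    have h2 := (hR.2 (!k) v h).2.2.1 (by omega)
    apply hv.2
    refine Or.inr ?_
    rw [hXM.1]
    show sd (zpt x (2 ^ (i + 1)) (kix (!k))) v ≤ 2 ^ (i + 1) / 8
    rw [e2]
    omega
  have l3 : Loc (Ev fun c => MrkC c 2 false x (2 ^ (i + 4)) (Dfree false x (2 ^ L))
      (zpt x (2 ^ (i + 4))) (2 ^ (i + 4) / 64) (2 ^ (i + 4) / 8) k)
      ((swr true j x ℓ ∪ swr false j x ℓ)ᶜ ∪ swr k j x ℓ) := by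
    refine (hXL 2 false x (2 ^ (i + 4)) (Dfree false x (2 ^ L)) (zpt x (2 ^ (i + 4)))
      (2 ^ (i + 4) / 64) (2 ^ (i + 4) / 8) k (Or.inr ⟨2 ^ L, ?_⟩)).1.mono ?_
    · intro v hv
      simpa [Dfree] using hv
    · intro v hv
      refine key v fun h => ?_
      have h1 : 2 ^ (i + 4) ≤ sd x v := hv.1
      have h2 := (hR.2 (!k) v h).2.2.2 (by omega)
      apply hv.2
      refine Or.inr ?_
      rw [hXM.1]
      show sd (zpt x (2 ^ (i + 4)) (kix (!k))) v ≤ 2 ^ (i + 4) / 8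
      rw [e3]
      omega
  have h12 := (l1.inter (l2.inter l3))
  rw [Set.union_self, Set.union_self] at h12
  exact h12

theorem G3P_mon (hXL : GXL_stmt) (hXA : GXA_stmt) (k : Bool) (γ : Set V) (x : V)
    (k₀ L i : ℕ) : Mon k (G3P_E k γ x k₀ L i) := by
  refine (hXA k γ x (2 ^ k₀) (2 ^ (i - 1))).inter (Mon.inter ?_ ?_)
  · exact (hXL 2 true x (2 ^ (i + 1)) (Dfree true x (2 ^ k₀)) (zpt x (2 ^ (i + 1)))
      (2 ^ (i + 1) / 64) (2 ^ (i + 1) / 8) k (Or.inl rfl)).2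
  · refine (hXL 2 false x (2 ^ (i + 4)) (Dfree false x (2 ^ L)) (zpt x (2 ^ (i + 4)))
      (2 ^ (i + 4) / 64) (2 ^ (i + 4) / 8) k (Or.inr ⟨2 ^ L, ?_⟩)).2
    intro v hv
    simpa [Dfree] using hv

theorem G3P_inter (γ : Set V) (x : V) (k₀ L i : ℕ) :
    G3P_E true γ x k₀ L i ∩ G3P_E false γ x k₀ L i =
      (Ev fun c => Uev c γ x k₀ i) ∩
        Ev fun c => Std c 2 false x (2 ^ (i + 4)) (Dfree false x (2 ^ L)) := by
  ext b
  exact ⟨fun h => ⟨⟨⟨h.1.1, h.2.1⟩, ⟨h.1.2.1, h.2.2.1⟩⟩, ⟨h.1.2.2, h.2.2.2⟩⟩,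
    fun h => ⟨⟨h.1.1.1, h.1.2.1, h.2.1⟩, ⟨h.1.1.2, h.1.2.2, h.2.2⟩⟩⟩

theorem G3P_locU (hXL : GXL_stmt) (hLA : GLA_stmt) (γ : Set V) (x : V) (k₀ i : ℕ) :
    Loc (Ev fun c => Uev c γ x k₀ i) (box x (2 ^ (i + 1))) := by
  have hp : 2 ^ (i - 1) ≤ 2 ^ (i + 1) := Nat.pow_le_pow_right (by norm_num) (by omega)
  have a : ∀ k, Loc (Ev fun c => armA c k γ x (2 ^ k₀) (2 ^ (i - 1))) (box x (2 ^ (i + 1))) := by
    intro k
    refine ((hLA x (2 ^ k₀) (2 ^ (i - 1))).2.2 k γ).mono ?_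
    intro v hv
    exact le_trans hv.1.2 hp
  have m : ∀ k, Loc (Ev fun c => MrkC c 2 true x (2 ^ (i + 1)) (Dfree true x (2 ^ k₀))
      (zpt x (2 ^ (i + 1))) (2 ^ (i + 1) / 64) (2 ^ (i + 1) / 8) k) (box x (2 ^ (i + 1))) := by
    intro k
    refine (hXL 2 true x (2 ^ (i + 1)) (Dfree true x (2 ^ k₀)) (zpt x (2 ^ (i + 1)))
      (2 ^ (i + 1) / 64) (2 ^ (i + 1) / 8) k (Or.inl rfl)).1.mono ?_
    intro v hv
    exact hv.1
  have h := ((a true).inter (a false)).inter ((m true).inter (m false))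
  simp only [Set.union_self] at h
  exact h

theorem G3P_locS (hXL : GXL_stmt) (x : V) (L i : ℕ) :
    Loc (Ev fun c => Std c 2 false x (2 ^ (i + 4)) (Dfree false x (2 ^ L)))
      {v | 2 ^ (i + 4) ≤ sd x v} := by
  have m : ∀ k, Loc (Ev fun c => MrkC c 2 false x (2 ^ (i + 4)) (Dfree false x (2 ^ L))
      (zpt x (2 ^ (i + 4))) (2 ^ (i + 4) / 64) (2 ^ (i + 4) / 8) k)
        {v | 2 ^ (i + 4) ≤ sd x v} := by
    intro k
    refine (hXL 2 false x (2 ^ (i + 4)) (Dfree false x (2 ^ L)) (zpt x (2 ^ (i + 4)))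
      (2 ^ (i + 4) / 64) (2 ^ (i + 4) / 8) k (Or.inr ⟨2 ^ L, ?_⟩)).1.mono ?_
    · intro v hv
      simpa [Dfree] using hv
    · intro v hv
      exact hv.1
  have h := (m true).inter (m false)
  simp only [Set.union_self] at h
  exact h

theorem G3P (hG : Bgen_stmt) (hI : Bindep_stmt) (hz : Bzero_stmt) (hXL : GXL_stmt)
    (hXA : GXA_stmt) (hXM : GXM_stmt) (hXR : GXR_stmt) (hXS : GXS_stmt) (hLA : GLA_stmt) :
    G3P_stmt := by
  obtain ⟨hSl, c₁, hc₁, ℓ₀, hS⟩ := hXS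
  refine ⟨c₁ * c₁, mul_pos hc₁ hc₁, ℓ₀ + 4, ?_⟩
  intro γ x k₀ L i j hk₀ hk hL
  have hi : 4 ≤ i := by omega
  obtain ⟨ℓ, hℓ⟩ : ∃ ℓ : ℕ, ℓ = 2 ^ (i - 4) := ⟨_, rfl⟩
  have hℓ0 : ℓ₀ ≤ ℓ := by
    have : i - 4 < 2 ^ (i - 4) := Nat.lt_two_pow_self
    omega
  have hℓ1 : 1 ≤ ℓ := by rw [hℓ]; exact Nat.one_le_two_pow
  have hR := hXR j x ℓ hℓ1
  have lp : Loc (G3P_E true γ x k₀ L i)
      ((swr true j x ℓ ∪ swr false j x ℓ)ᶜ ∪ swr true j x ℓ) := by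
    rw [hℓ]; exact G3P_loc hXL hXM hXR hLA true γ x k₀ L i j hi
  have lm : Loc (G3P_E false γ x k₀ L i)
      ((swr true j x ℓ ∪ swr false j x ℓ)ᶜ ∪ swr false j x ℓ) := by
    rw [hℓ]; exact G3P_loc hXL hXM hXR hLA false γ x k₀ L i j hi
  have lup := hSl true j x ℓ
  have lum := hSl false j x ℓ
  have g := hG (fun _ => 0) (G3P_E true γ x k₀ L i) (G3P_E false γ x k₀ L i)
    (Ev fun c => Sw c true j x ℓ) (Ev fun c => Sw c false j x ℓ)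
    ((swr true j x ℓ ∪ swr false j x ℓ)ᶜ) (swr true j x ℓ) (swr false j x ℓ)
    (by
      rw [Set.disjoint_left]
      intro v hv h
      exact hv (Or.inl h))
    (by
      rw [Set.disjoint_left]
      intro v hv h
      exact hv (Or.inr h))
    hR.1 lp lm lup.1 lum.1 (G3P_mon hXL hXA true γ x k₀ L i) (G3P_mon hXL hXA false γ x k₀ L i)
    lup.2 lum.2
  rw [G3P_Pr hz (lp.inter lm), G3P_Pr hz lup.1, G3P_Pr hz lum.1,
    G3P_Pr hz ((lp.inter lm).inter (lup.1.inter lum.1)), G3P_inter,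
    G3P_mul hz hI (A := box x (2 ^ (i + 1))) (A' := {v | 2 ^ (i + 4) ≤ sd x v}) ?_
      (G3P_locU hXL hLA γ x k₀ i) (G3P_locS hXL x L i)] at g
  · have e : (Ev fun c => Uev c γ x k₀ i) ∩
        (Ev fun c => Std c 2 false x (2 ^ (i + 4)) (Dfree false x (2 ^ L))) ∩
        ((Ev fun c => Sw c true j x ℓ) ∩ Ev fun c => Sw c false j x ℓ) =
        Ev fun c => Fev c γ x k₀ L i j := by
      rw [hℓ]
      ext b
      exact ⟨fun h => ⟨h.1.1, h.1.2, h.2.1, h.2.2⟩, fun h => ⟨⟨h.1, h.2.1⟩, ⟨h.2.2.1, h.2.2.2⟩⟩⟩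
    rw [e] at g
    refine le_trans ?_ g
    have h1 := hS true j x ℓ hℓ0
    have h2 := hS false j x ℓ hℓ0
    have hu : 0 ≤ uu γ x k₀ i := measureReal_nonneg
    have hs : 0 ≤ Pr (Ev fun c => Std c 2 false x (2 ^ (i + 4)) (Dfree false x (2 ^ L))) :=
      measureReal_nonneg
    have h3 : c₁ * c₁ ≤ Pr (Ev fun c => Sw c true j x ℓ) * Pr (Ev fun c => Sw c false j x ℓ) :=
      mul_le_mul h1 h2 hc₁.le (le_trans hc₁.le h1)
    have h4 : 0 ≤ uu γ x k₀ i *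
        Pr (Ev fun c => Std c 2 false x (2 ^ (i + 4)) (Dfree false x (2 ^ L))) := mul_nonneg hu hs
    have h5 := mul_le_mul_of_nonneg_left h3 h4
    calc c₁ * c₁ * (uu γ x k₀ i *
          Pr (Ev fun c => Std c 2 false x (2 ^ (i + 4)) (Dfree false x (2 ^ L))))
        = uu γ x k₀ i * Pr (Ev fun c => Std c 2 false x (2 ^ (i + 4)) (Dfree false x (2 ^ L))) *
          (c₁ * c₁) := by ring
      _ ≤ _ := h5
  · rw [Set.disjoint_left]
    intro v hv h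
    have h1 : sd x v ≤ 2 ^ (i + 1) := hv
    have h2 : 2 ^ (i + 4) ≤ sd x v := h
    have h3 : 2 ^ (i + 4) = 8 * 2 ^ (i + 1) := by
      rw [show i + 4 = 3 + (i + 1) by omega, pow_add]; norm_num
    have h4 : 1 ≤ 2 ^ (i + 1) := Nat.one_le_two_pow
    omega

end DP
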